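import Pool.Agent.Helper37_BSig.Stmts

/-!
# There are at most continuum many bounded relations
-/

namespace Pool.Agent.BSig.H7

open Cardinal FirstOrder FirstOrder.Language

/-- Function symbols: parameters, `2^x`, sum, product. -/
inductive Fn : ℕ → Type
  | c (x : MM) : Fn 0
  | p : Fn 1
  | a : Fn 2
  | m : Fn 2

/-- Relation symbols. -/
inductive Rl : ℕ → Type
  | le : Rl 2

/-- The language. -/
def LL : FirstOrder.Language.{0, 0} := ⟨Fn, Rl⟩

noncomputable instance : LL.Structure MM where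
  funMap := fun {n} f v => match n, f, v with
    | _, .c x, _ => x
    | _, .p, v => pow2 (v 0)
    | _, .a, v => v 0 + v 1
    | _, .m, v => v 0 * v 1
  RelMap := fun {n} r v => match n, r, v with
    | _, .le, v => v 0 ≤ v 1

theorem term_real {k : ℕ} {f : (Fin k → MM) → MM} (h : IsTerm f) :
    ∃ t : LL.Term (Fin k), ∀ v, t.realize v = f v := by
  induction h with
  | param c => exact ⟨Term.func (l := 0) (Fn.c c : LL.Functions 0) ![], fun v => rfl⟩
  | var i => exact ⟨Term.var i, fun v => rfl⟩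
  | add _ _ ih1 ih2 =>
    obtain ⟨t1, h1⟩ := ih1; obtain ⟨t2, h2⟩ := ih2
    refine ⟨Term.func (l := 2) (Fn.a : LL.Functions 2) ![t1, t2], fun v => ?_⟩
    have : (Term.func (l := 2) (Fn.a : LL.Functions 2) ![t1, t2]).realize v =
      t1.realize v + t2.realize v := rfl
    rw [this, h1, h2]
  | mul _ _ ih1 ih2 =>
    obtain ⟨t1, h1⟩ := ih1; obtain ⟨t2, h2⟩ := ih2
    refine ⟨Term.func (l := 2) (Fn.m : LL.Functions 2) ![t1, t2], fun v => ?_⟩
    have : (Term.func (l := 2) (Fn.m : LL.Functions 2) ![t1, t2]).realize v =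
      t1.realize v * t2.realize v := rfl
    rw [this, h1, h2]
  | pow2 _ ih1 =>
    obtain ⟨t1, h1⟩ := ih1
    refine ⟨Term.func (l := 1) (Fn.p : LL.Functions 1) ![t1], fun v => ?_⟩
    have : (Term.func (l := 1) (Fn.p : LL.Functions 1) ![t1]).realize v =
      pow2 (t1.realize v) := rfl
    rw [this, h1]

theorem delta_real {k : ℕ} {P : (Fin k → MM) → Prop} (h : IsDelta0 P) :
    ∃ φ : LL.Formula (Fin k), ∀ v, φ.Realize v ↔ P v := by
  induction h with
  | eq h1 h2 =>
    obtain ⟨t1, h1⟩ := term_real h1; obtain ⟨t2, h2⟩ := term_real h2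
    exact ⟨Term.equal t1 t2, fun v => by rw [Formula.realize_equal, h1, h2]⟩
  | le h1 h2 =>
    obtain ⟨t1, h1⟩ := term_real h1; obtain ⟨t2, h2⟩ := term_real h2
    refine ⟨Relations.formula₂ (Rl.le : LL.Relations 2) t1 t2, fun v => ?_⟩
    rw [Formula.realize_rel₂, h1, h2]
    rfl
  | not _ ih =>
    obtain ⟨φ, h⟩ := ih
    exact ⟨φ.not, fun v => by rw [Formula.realize_not, h]⟩
  | and _ _ ih1 ih2 =>
    obtain ⟨φ, h⟩ := ih1; obtain ⟨ψ, h'⟩ := ih2
    exact ⟨φ ⊓ ψ, fun v => by rw [Formula.realize_inf, h, h']⟩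
  | @ball k f Q hf _ ih =>
    obtain ⟨t, ht⟩ := term_real hf; obtain ⟨φ, hφ⟩ := ih
    let g : Fin (k + 1) → Fin k ⊕ Unit := Fin.cons (Sum.inr ()) (fun i => Sum.inl i)
    refine ⟨Formula.iAlls Unit ((Relations.formula₂ (Rl.le : LL.Relations 2)
      (Term.var (Sum.inr ()) : LL.Term (Fin k ⊕ Unit)) (t.relabel Sum.inl)).imp
        (φ.relabel g)), fun v => ?_⟩
    have key : ∀ i : Unit → MM, ((Relations.formula₂ (Rl.le : LL.Relations 2)
      (Term.var (Sum.inr ()) : LL.Term (Fin k ⊕ Unit)) (t.relabel Sum.inl)).imp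
        (φ.relabel g)).Realize (fun a => Sum.elim v i a) ↔
        (i () ≤ f v → Q (Fin.cons (i ()) v)) := by
      intro i
      rw [Formula.realize_imp, Formula.realize_rel₂, Formula.realize_relabel, hφ,
        Term.realize_relabel]
      have e1 : ((fun a => Sum.elim v i a) ∘ Sum.inl) = v := rfl
      have e2 : ((fun a => Sum.elim v i a) ∘ g) = (Fin.cons (i ()) v : Fin (k + 1) → MM) := by
        funext j
        refine Fin.cases ?_ ?_ j
        · rfl
        · intro l; rfl
      rw [e1, e2, ht]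
      rfl
    refine Formula.realize_iAlls.trans ?_
    constructor
    · intro H x hx
      exact (key (fun _ => x)).1 (H _) hx
    · intro H i
      exact (key i).2 (H _)

theorem card_fn (hC : #MM = continuum) : #(Σ n, Fn n) ≤ continuum := by
  let F : (Σ n, Fn n) → MM ⊕ Fin 3 := fun s => match s with
    | ⟨_, .c x⟩ => Sum.inl x
    | ⟨_, .p⟩ => Sum.inr 0
    | ⟨_, .a⟩ => Sum.inr 1
    | ⟨_, .m⟩ => Sum.inr 2
  have hF : Function.Injective F := by
    rintro ⟨_, _ | _ | _ | _⟩ ⟨_, _ | _ | _ | _⟩ h <;> simp_all [F]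
  refine (mk_le_of_injective hF).trans ?_
  rw [mk_sum, hC]
  simp only [lift_continuum, mk_fin, lift_natCast]
  exact add_le_of_le aleph0_le_continuum le_rfl (natCast_lt_aleph0.trans aleph0_lt_continuum).le

theorem card_rl : #(Σ n, Rl n) ≤ continuum := by
  have : Subsingleton (Σ n, Rl n) := by
    constructor
    rintro ⟨_, _ | _⟩ ⟨_, _ | _⟩
    rfl
  exact (le_one_iff_subsingleton.2 this).trans (one_le_aleph0.trans aleph0_le_continuum)

theorem card_form (hC : #MM = continuum) : #(LL.Formula (Fin 5)) ≤ continuum := by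
  have h1 : #(LL.Formula (Fin 5)) ≤ #(Σ n, LL.BoundedFormula (Fin 5) n) :=
    mk_le_of_injective (f := fun φ => (⟨0, φ⟩ : Σ n, LL.BoundedFormula (Fin 5) n)) (by
      intro a b h
      simpa using h)
  refine h1.trans (BoundedFormula.card_le.trans ?_)
  refine max_le aleph0_le_continuum ?_
  rw [lift_id, lift_id]
  refine add_le_of_le aleph0_le_continuum ?_ ?_
  · rw [mk_fin]; exact (natCast_lt_aleph0.trans aleph0_lt_continuum).le
  · have : LL.card = #((Σ n, Fn n) ⊕ (Σ n, Rl n)) := rfl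
    rw [this, mk_sum, lift_id, lift_id]
    exact add_le_of_le aleph0_le_continuum (card_fn hC) card_rl

/-- There are at most continuum many bounded relations. -/
theorem cardDelta_proof (hcard : CardStmt) : CardDelta := by
  classical
  have h1 : ∀ φ : {φ : (Fin 5 → MM) → Prop // IsDelta0 φ}, ∃ ψ : LL.Formula (Fin 5),
    ∀ v, ψ.Realize v ↔ φ.1 v := fun φ => delta_real φ.2
  choose F hF using h1
  refine (mk_le_of_injective (f := F) ?_).trans (card_form hcard.1)
  intro φ ψ h
  apply Subtype.ext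
  funext v
  apply propext
  rw [← hF φ v, ← hF ψ v, h]

end Pool.Agent.BSig.H7
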